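import Mathlib
import Pool.Agent.H683R2.RFLow

set_option autoImplicit false

namespace Pool.Agent.Results.MP_7fb13b_lc.SqrtRate

open Matrix Complex Filter Topology
open Pool.Agent.H683R2.RF (Gate circ XX lower)

/-- The normalized discrete Fourier matrix: `F(k,l) = n^(-1/2) exp(-2 pi i k l / n)`. -/
noncomputable def dft (n : ℕ) : Matrix (Fin n) (Fin n) ℂ := fun k l =>
  ((1 / Real.sqrt n : ℝ) : ℂ) * Complex.exp (-(2 * Real.pi * I * (k : ℕ) * (l : ℕ)) / n)

/-- The `2n × 2n` skew-Hermitian matrix `((0, F), (-F*, 0))`. -/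
def G {n : ℕ} (F : Matrix (Fin n) (Fin n) ℂ) : Matrix (Fin n ⊕ Fin n) (Fin n ⊕ Fin n) ℂ :=
  fromBlocks 0 F (-Fᴴ) 0

/-- The rotated matrix `X_α = cos α Id + sin α G`. -/
noncomputable def X {n : ℕ} (F : Matrix (Fin n) (Fin n) ℂ) (α : ℝ) :
    Matrix (Fin n ⊕ Fin n) (Fin n ⊕ Fin n) ℂ :=
  (Real.cos α : ℂ) • 1 + (Real.sin α : ℂ) • G F

/-- A two-coordinate unitary: a unitary matrix that agrees with the identity except on the rows
and columns of two distinct coordinates `i ≠ j`. -/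
def TwoCoordinate {ι : Type} [Fintype ι] [DecidableEq ι] (R : Matrix ι ι ℂ) : Prop :=
  R ∈ unitaryGroup ι ℂ ∧ ∃ i j : ι, i ≠ j ∧
    ∀ k l : ι, ¬ ((k = i ∨ k = j) ∧ (l = i ∨ l = j)) → R k l = (1 : Matrix ι ι ℂ) k l

/-- An algorithm for `U`: a factorization `U = R_m ⋯ R_1` into two-coordinate unitaries, given as
the list `[R_m, …, R_1]`; its number of steps is the length of the list. -/
def IsAlgorithm {ι : Type} [Fintype ι] [DecidableEq ι] (L : List (Matrix ι ι ℂ))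
    (U : Matrix ι ι ℂ) : Prop :=
  (∀ R ∈ L, TwoCoordinate R) ∧ L.prod = U

/-- The rate `g(α) = √α / (1280 (log (1/α))^(3/2))`. -/
noncomputable def g (α : ℝ) : ℝ := Real.sqrt α / (1280 * Real.log (1 / α) ^ (3 / 2 : ℝ))

lemma exists_gates {ι : Type} [Fintype ι] [DecidableEq ι] (L : List (Matrix ι ι ℂ))
    (hL : ∀ R ∈ L, TwoCoordinate R) : ∃ gs : List (Gate ι), gs.map Gate.R = L := by
  induction L with
  | nil => exact ⟨[], rfl⟩
  | cons R L ih =>
    obtain ⟨gs, hgs⟩ := ih (fun R' hR' => hL R' (List.mem_cons_of_mem _ hR'))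
    obtain ⟨hR, i, j, hij, hoff⟩ := hL R List.mem_cons_self
    refine ⟨⟨R, i, j, hij, ?_, ?_, hoff⟩ :: gs, by rw [List.map_cons, hgs]⟩
    · exact (mem_unitaryGroup_iff.1 hR)
    · exact (mem_unitaryGroup_iff'.1 hR)

lemma bound {n : ℕ} (hn : 1 ≤ n) {F : Matrix (Fin n) (Fin n) ℂ} (hF : F ∈ unitaryGroup (Fin n) ℂ)
    (hflat : ∀ k l, ‖F k l‖ ≤ 1 / Real.sqrt n) {α : ℝ} (hα : 0 < α) (hα1 : α ≤ 1 / 10 ^ 10)
    (L : List (Matrix (Fin n ⊕ Fin n) (Fin n ⊕ Fin n) ℂ)) (hL : IsAlgorithm L (X F α)) :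
    g α * n * Real.log n ≤ L.length := by
  obtain ⟨gs, hgs⟩ := exists_gates L hL.1
  set Γ : Matrix (Fin n ⊕ Fin n) (Fin n ⊕ Fin n) ℂ := (-I) • G F with hΓ
  have hF1 : F * Fᴴ = 1 := mem_unitaryGroup_iff.1 hF
  have hF2 : Fᴴ * F = 1 := mem_unitaryGroup_iff'.1 hF
  have hI : star (-I) = I := by
    rw [star_neg, show star I = -I from Complex.conj_I, neg_neg]
  have hG1 : (G F)ᴴ = -(G F) := by
    rw [G, fromBlocks_conjTranspose, fromBlocks_neg]
    simp
  have hG2 : G F * G F = -1 := by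
    rw [G, fromBlocks_multiply, ← fromBlocks_one, fromBlocks_neg]
    simp [hF1, hF2]
  have h1 : Γᴴ = Γ := by
    rw [hΓ, conjTranspose_smul, hI, hG1]
    module
  have h2 : Γ * Γ = 1 := by
    rw [hΓ, Matrix.smul_mul, Matrix.mul_smul, hG2, smul_smul]
    have : -I * -I = -1 := by rw [neg_mul_neg, I_mul_I]
    rw [this]
    module
  have h3 : trace Γ = 0 := by
    rw [hΓ, trace_smul]
    have : trace (G F) = 0 := by
      simp only [G, trace, Fintype.sum_sum_type, diag_apply, fromBlocks_apply₁₁,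
        fromBlocks_apply₂₂]
      simp
    rw [this, smul_zero]
  have hpos : 0 ≤ 1 / Real.sqrt (n : ℝ) := by positivity
  have h4 : ∀ i j, ‖Γ i j‖ ≤ 1 / Real.sqrt n := by
    intro i j
    rw [hΓ, Matrix.smul_apply, smul_eq_mul, norm_mul, norm_neg, norm_I, one_mul]
    rcases i with i | i <;> rcases j with j | j
    · simp [G]
    · simpa [G] using hflat i j
    · simpa [G] using hflat j i
    · simp [G]
  have h5 : circ gs 1 = XX Γ α := by
    rw [Pool.Agent.H683R2.RF.circ_one, hgs, hL.2, X, XX, hΓ, smul_smul]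
    congr 2
    have : (Real.sin α : ℂ) * I * -I = Real.sin α * (-(I * I)) := by ring
    rw [this, I_mul_I]
    ring
  have hcard : Fintype.card (Fin n ⊕ Fin n) = 2 * n := by
    rw [Fintype.card_sum, Fintype.card_fin]
    ring
  have h6 := lower hn hcard gs h1 h2 h3 h4 hα hα1 h5
  have h7 : gs.length = L.length := by rw [← hgs, List.length_map]
  rw [h7] at h6
  exact h6

lemma dft_unitary {n : ℕ} (hn : 1 ≤ n) : dft n ∈ unitaryGroup (Fin n) ℂ := by
  have hn0 : (n : ℂ) ≠ 0 := by exact_mod_cast (by omega : n ≠ 0)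
  rw [mem_unitaryGroup_iff]
  ext k l
  rw [Matrix.star_eq_conjTranspose, Matrix.mul_apply]
  set q : ℂ := Complex.exp (2 * Real.pi * I * ((l : ℕ) - (k : ℕ)) / n) with hq
  have hterm : ∀ j : Fin n, dft n k j * (dft n)ᴴ j l = (1 / n : ℂ) * q ^ (j : ℕ) := by
    intro j
    rw [conjTranspose_apply, dft, dft, star_mul', ← starRingEnd_apply, ← starRingEnd_apply,
      Complex.conj_ofReal, ← Complex.exp_conj, hq, ← Complex.exp_nat_mul]
    have e1 : ((1 / Real.sqrt n : ℝ) : ℂ) * Complex.exp (-(2 * Real.pi * I * (k : ℕ) * (j : ℕ)) / n)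
        * (((1 / Real.sqrt n : ℝ) : ℂ) *
        Complex.exp ((starRingEnd ℂ) (-(2 * Real.pi * I * (l : ℕ) * (j : ℕ)) / n))) =
        (((1 / Real.sqrt n) * (1 / Real.sqrt n) : ℝ) : ℂ) *
        Complex.exp (-(2 * Real.pi * I * (k : ℕ) * (j : ℕ)) / n +
        (starRingEnd ℂ) (-(2 * Real.pi * I * (l : ℕ) * (j : ℕ)) / n)) := by
      rw [Complex.exp_add]
      push_cast
      ring
    rw [e1]
    congr 1
    · have : (1 / Real.sqrt n) * (1 / Real.sqrt n) = (1 / n : ℝ) := by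
        rw [div_mul_div_comm, Real.mul_self_sqrt (Nat.cast_nonneg n), one_mul]
      rw [this]
      push_cast
      rfl
    · congr 1
      rw [map_div₀, map_neg, map_mul, map_mul, map_mul, map_mul, Complex.conj_I,
        Complex.conj_ofReal, Complex.conj_natCast, Complex.conj_natCast, Complex.conj_natCast]
      have : (starRingEnd ℂ) 2 = 2 := Complex.conj_ofNat 2
      rw [this]
      field_simp
      ring
  rw [Finset.sum_congr rfl fun j _ => hterm j, ← Finset.mul_sum,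
    Fin.sum_univ_eq_sum_range (fun j => q ^ j) n]
  by_cases hkl : k = l
  · subst hkl
    have hq1 : q = 1 := by
      rw [hq]; simp
    rw [hq1, Matrix.one_apply_eq]
    simp [hn0]
  · rw [Matrix.one_apply_ne hkl]
    have hqn : q ^ n = 1 := by
      rw [hq, ← Complex.exp_nat_mul]
      have : (n : ℂ) * (2 * Real.pi * I * ((l : ℕ) - (k : ℕ)) / n) =
          (((l : ℕ) : ℤ) - ((k : ℕ) : ℤ) : ℤ) * (2 * Real.pi * I) := by
        push_cast
        field_simp
      rw [this]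
      exact Complex.exp_int_mul_two_pi_mul_I _
    have hq1 : q ≠ 1 := by
      intro h
      rw [hq, Complex.exp_eq_one_iff] at h
      obtain ⟨N, hN⟩ := h
      have h2 : (2 * Real.pi * I : ℂ) ≠ 0 := by
        simp [Real.pi_ne_zero]
      have h3 : (((l : ℕ) : ℂ) - ((k : ℕ) : ℂ)) = N * n := by
        have h4 : (2 * Real.pi * I : ℂ) * (((l : ℕ) : ℂ) - ((k : ℕ) : ℂ)) =
            (2 * Real.pi * I : ℂ) * (N * n) := by
          rw [div_eq_iff hn0] at hN
          rw [hN]; ring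
        exact mul_left_cancel₀ h2 h4
      have h4 : (((l : ℕ) : ℤ) - ((k : ℕ) : ℤ)) = N * n := by exact_mod_cast h3
      have hk := k.2
      have hl := l.2
      have hkl' : ((l : ℕ) : ℤ) ≠ ((k : ℕ) : ℤ) := by
        intro h
        apply hkl
        ext
        exact_mod_cast h.symm
      rcases lt_trichotomy N 0 with hN0 | hN0 | hN0
      · nlinarith
      · rw [hN0, zero_mul] at h4; exact hkl' (by linarith)
      · nlinarith
    have : ∑ j ∈ Finset.range n, q ^ j = 0 := by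
      rw [geom_sum_eq hq1, hqn, sub_self, zero_div]
    rw [this, mul_zero]

lemma dft_flat {n : ℕ} (k l : Fin n) : ‖dft n k l‖ ≤ 1 / Real.sqrt n := by
  rw [dft, norm_mul, Complex.norm_real, Real.norm_of_nonneg (by positivity)]
  have : (-(2 * Real.pi * I * (k : ℕ) * (l : ℕ)) / n : ℂ) =
      ((-(2 * Real.pi * (k : ℕ) * (l : ℕ)) / n : ℝ) : ℂ) * I := by
    push_cast; ring
  rw [this, Complex.norm_exp_ofReal_mul_I, mul_one]

lemma g_tendsto : Tendsto (fun α => g α / α) (𝓝[>] 0) atTop := by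
  have h1 : ∀ᶠ α : ℝ in 𝓝[>] 0, (1 / 20000) * (α ^ (-(1 / 4) : ℝ)) ≤ g α / α := by
    filter_upwards [Ioo_mem_nhdsGT (show (0 : ℝ) < 1 / 10 by norm_num)] with α hα
    obtain ⟨h0, h1⟩ := hα
    have hl0 : 0 < Real.log (1 / α) := by
      apply Real.log_pos
      rw [lt_div_iff₀ h0]; linarith
    have h2 : Real.log (1 / α) ≤ (1 / α) ^ (1 / 6 : ℝ) / (1 / 6) :=
      Real.log_le_rpow_div (by positivity) (by norm_num)
    have h3 : Real.log (1 / α) ≤ 6 * α ^ (-(1 / 6) : ℝ) := by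
      refine h2.trans (le_of_eq ?_)
      rw [one_div α, Real.inv_rpow h0.le, Real.rpow_neg h0.le]
      ring
    have h4 : Real.log (1 / α) ^ (3 / 2 : ℝ) ≤ 15 * α ^ (-(1 / 4) : ℝ) := by
      refine (Real.rpow_le_rpow hl0.le h3 (by norm_num)).trans ?_
      rw [Real.mul_rpow (by norm_num) (by positivity), ← Real.rpow_mul h0.le]
      have e1 : (-(1 / 6) : ℝ) * (3 / 2) = -(1 / 4) := by norm_num
      rw [e1]
      gcongr
      have e2 : (6 : ℝ) ^ (3 / 2 : ℝ) = 6 * Real.sqrt 6 := by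
        rw [Real.sqrt_eq_rpow, ← Real.rpow_one_add' (by norm_num) (by norm_num)]
        norm_num
      rw [e2]
      have e3 : Real.sqrt 6 ≤ 5 / 2 := by
        rw [Real.sqrt_le_left (by norm_num)]; norm_num
      linarith
    have h5 : 0 < Real.log (1 / α) ^ (3 / 2 : ℝ) := Real.rpow_pos_of_pos hl0 _
    rw [le_div_iff₀ h0]
    unfold g
    rw [le_div_iff₀ (by positivity), Real.sqrt_eq_rpow]
    have h6 : α ^ (-(1 / 4) : ℝ) * α * α ^ (-(1 / 4) : ℝ) = α ^ (1 / 2 : ℝ) := by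
      have e0 : α ^ (-(1 / 4) : ℝ) * α * α ^ (-(1 / 4) : ℝ) =
          α ^ (-(1 / 4) : ℝ) * α ^ (1 : ℝ) * α ^ (-(1 / 4) : ℝ) := by rw [Real.rpow_one]
      rw [e0, ← Real.rpow_add h0, ← Real.rpow_add h0]
      norm_num
    calc 1 / 20000 * α ^ (-(1 / 4) : ℝ) * α * (1280 * Real.log (1 / α) ^ (3 / 2 : ℝ))
        ≤ 1 / 20000 * α ^ (-(1 / 4) : ℝ) * α * (1280 * (15 * α ^ (-(1 / 4) : ℝ))) := by
          gcongr
      _ = (1280 * 15 / 20000) * (α ^ (-(1 / 4) : ℝ) * α * α ^ (-(1 / 4) : ℝ)) := by ring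
      _ ≤ 1 * (α ^ (-(1 / 4) : ℝ) * α * α ^ (-(1 / 4) : ℝ)) := by
          gcongr
          norm_num
      _ = α ^ (1 / 2 : ℝ) := by rw [one_mul, h6]
  refine tendsto_atTop_mono' _ h1 ?_
  apply Tendsto.const_mul_atTop (by norm_num)
  exact tendsto_rpow_neg_nhdsGT_zero (by norm_num)

/-- **Every algorithm with two-coordinate unitaries for the rotated Fourier matrix `X_α` has at
least `g(α) n log n` steps**, `g(α) = √α / (1280 (log (1/α))^(3/2))`, for all `n ≥ 1` and all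
`0 < α ≤ 10^(-10)`; here `g(α) / α → ∞` as `α → 0+`. The same holds with any unitary matrix all
of whose entries have modulus at most `n^(-1/2)` in place of the Fourier matrix. -/
theorem result :
    Tendsto (fun α => g α / α) (𝓝[>] 0) atTop ∧
    (∀ α : ℝ, 0 < α → α ≤ 1 / 10 ^ 10 → ∀ n : ℕ, 1 ≤ n →
      ∀ L : List (Matrix (Fin n ⊕ Fin n) (Fin n ⊕ Fin n) ℂ), IsAlgorithm L (X (dft n) α) →
        g α * n * Real.log n ≤ L.length) ∧
    (∀ α : ℝ, 0 < α → α ≤ 1 / 10 ^ 10 → ∀ n : ℕ, 1 ≤ n →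
      ∀ F : Matrix (Fin n) (Fin n) ℂ, F ∈ unitaryGroup (Fin n) ℂ →
        (∀ k l, ‖F k l‖ ≤ 1 / Real.sqrt n) →
      ∀ L : List (Matrix (Fin n ⊕ Fin n) (Fin n ⊕ Fin n) ℂ), IsAlgorithm L (X F α) →
        g α * n * Real.log n ≤ L.length) :=
  ⟨g_tendsto,
    fun _ hα hα1 _ hn L hL => bound hn (dft_unitary hn) dft_flat hα hα1 L hL,
    fun _ hα hα1 _ hn _ hF hflat L hL => bound hn hF hflat hα hα1 L hL⟩

end Pool.Agent.Results.MP_7fb13b_lc.SqrtRate
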